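import Pool.Agent.W47.TM.Defs

set_option autoImplicit false

/-! S_PF: explicit partial fractions. -/

namespace Pool.Agent.W21.TM

open Finset Polynomial Pool.Agent.W47.TM

/-- the product without the factor `k` -/
noncomputable def Pk (n N h k : ℕ) : ℚ[X] :=
  ∏ l ∈ (range (n + 1)).erase k, (X - C (l : ℚ)) ^ ex N h l

/-- the truncation, centred at `k` -/
noncomputable def Tk (n N h k : ℕ) : ℚ[X] :=
  ∑ i ∈ range (ex N h k), C (PowerSeries.coeff i (ser n N h k)) * (X - C (k : ℚ)) ^ i

theorem block_eq (n N h k : ℕ) :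
    ∑ j ∈ range (ex N h k), C (co n N h k j) * Pk n N h k * (X - C (k : ℚ)) ^ (ex N h k - 1 - j) =
      Pk n N h k * Tk n N h k := by
  unfold Tk
  rw [← Finset.sum_range_reflect, Finset.mul_sum]
  refine Finset.sum_congr rfl fun j hj => ?_
  have hj' := Finset.mem_range.1 hj
  have e : ex N h k - 1 - (ex N h k - 1 - j) = j := by omega
  unfold co
  rw [e]
  ring

theorem ps_mul (n N h k : ℕ) :
    (∏ l ∈ (range (n + 1)).erase k,
      (PowerSeries.C ((k : ℚ) - (l : ℚ)) + PowerSeries.X) ^ ex N h l) * ser n N h k = 1 := by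
  unfold ser
  rw [← Finset.prod_mul_distrib]
  refine Finset.prod_eq_one fun l hl => ?_
  rw [← mul_pow, PowerSeries.mul_inv_cancel, one_pow]
  have hne := Finset.ne_of_mem_erase hl
  simp only [map_add, PowerSeries.constantCoeff_C, PowerSeries.constantCoeff_X, add_zero]
  rw [sub_ne_zero]
  exact fun h => hne (by exact_mod_cast h.symm)

theorem dvd_shift (n N h k : ℕ) :
    (X : ℚ[X]) ^ ex N h k ∣ (Pk n N h k * Tk n N h k - 1).comp (X + C (k : ℚ)) := by
  rw [Polynomial.X_pow_dvd_iff]
  intro d hd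
  have e1 : (Pk n N h k).comp (X + C (k : ℚ)) =
      ∏ l ∈ (range (n + 1)).erase k, (C ((k : ℚ) - (l : ℚ)) + X) ^ ex N h l := by
    unfold Pk
    rw [Polynomial.prod_comp]
    refine Finset.prod_congr rfl fun l _ => ?_
    rw [Polynomial.pow_comp, Polynomial.sub_comp, Polynomial.X_comp, Polynomial.C_comp, C_sub]
    congr 1
    ring
  have e2 : (Tk n N h k).comp (X + C (k : ℚ)) =
      ∑ i ∈ range (ex N h k), C (PowerSeries.coeff i (ser n N h k)) * X ^ i := by
    unfold Tk
    rw [← Polynomial.coe_compRingHom_apply, map_sum]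
    refine Finset.sum_congr rfl fun i _ => ?_
    rw [Polynomial.coe_compRingHom_apply, Polynomial.mul_comp, Polynomial.C_comp, Polynomial.pow_comp, Polynomial.sub_comp,
      Polynomial.X_comp, Polynomial.C_comp]
    congr 2
    ring
  have e3 : ∀ i < ex N h k, ((Tk n N h k).comp (X + C (k : ℚ))).coeff i =
      PowerSeries.coeff i (ser n N h k) := by
    intro i hi
    rw [e2, Polynomial.finsetSum_coeff, Finset.sum_eq_single i]
    · simp
    · intro b _ hb
      rw [Polynomial.coeff_C_mul, Polynomial.coeff_X_pow, if_neg (fun h => hb h.symm), mul_zero]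
    · intro hi'
      exact absurd (Finset.mem_range.2 hi) hi'
  have e4 : ((((Pk n N h k).comp (X + C (k : ℚ)) : ℚ[X]) : PowerSeries ℚ)) =
      ∏ l ∈ (range (n + 1)).erase k,
        (PowerSeries.C ((k : ℚ) - (l : ℚ)) + PowerSeries.X) ^ ex N h l := by
    rw [e1, ← Polynomial.coeToPowerSeries.ringHom_apply, map_prod]
    refine Finset.prod_congr rfl fun l _ => ?_
    rw [map_pow, map_add, Polynomial.coeToPowerSeries.ringHom_apply,
      Polynomial.coeToPowerSeries.ringHom_apply, Polynomial.coe_C, Polynomial.coe_X]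
  rw [Polynomial.sub_comp, Polynomial.mul_comp, Polynomial.one_comp, Polynomial.coeff_sub,
    Polynomial.coeff_mul, Polynomial.coeff_one]
  have e5 := congrArg (PowerSeries.coeff d) (ps_mul n N h k)
  rw [← e4, PowerSeries.coeff_mul, PowerSeries.coeff_one] at e5
  rw [sub_eq_zero, ← e5]
  refine Finset.sum_congr rfl fun p hp => ?_
  have hp' := Finset.HasAntidiagonal.mem_antidiagonal.1 hp
  rw [e3 p.2 (by omega), Polynomial.coeff_coe]

theorem dvd_self (n N h k : ℕ) :
    (X - C (k : ℚ)) ^ ex N h k ∣ Pk n N h k * Tk n N h k - 1 := by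
  have h1 := map_dvd (Polynomial.compRingHom (X - C (k : ℚ))) (dvd_shift n N h k)
  simp only [Polynomial.coe_compRingHom_apply] at h1
  rw [Polynomial.pow_comp, Polynomial.X_comp, Polynomial.comp_assoc, Polynomial.add_comp,
    Polynomial.X_comp, Polynomial.C_comp, sub_add_cancel, Polynomial.comp_X] at h1
  exact h1

theorem t_PF : S_PF := by
  intro n N h hN hh
  have hG : (∑ k ∈ range (n + 1), ∑ j ∈ range (ex N h k), C (co n N h k j) *
      (∏ l ∈ (range (n + 1)).erase k, (X - C (l : ℚ)) ^ ex N h l) *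
        (X - C (k : ℚ)) ^ (ex N h k - 1 - j) : ℚ[X]) =
      ∑ k ∈ range (n + 1), Pk n N h k * Tk n N h k :=
    Finset.sum_congr rfl fun k _ => block_eq n N h k
  set D : ℕ := ∑ l ∈ range (n + 1), ex N h l with hD
  have hex : ∀ l, 1 ≤ ex N h l := fun l => by unfold ex; omega
  have hD1 : 1 ≤ D := by
    rw [hD]
    exact (hex 0).trans (Finset.single_le_sum (f := ex N h) (fun i _ => Nat.zero_le _)
      (Finset.mem_range.2 (Nat.succ_pos n)))
  -- degrees
  have hdeg : (∑ k ∈ range (n + 1), Pk n N h k * Tk n N h k).degree < D := by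
    rw [← hG, ← Polynomial.mem_degreeLT]
    refine Submodule.sum_mem _ fun k hk => Submodule.sum_mem _ fun j hj => ?_
    rw [Polynomial.mem_degreeLT]
    have hj' := Finset.mem_range.1 hj
    have h1 : (∏ l ∈ (range (n + 1)).erase k, (X - C (l : ℚ)) ^ ex N h l : ℚ[X]).natDegree ≤
        ∑ l ∈ (range (n + 1)).erase k, ex N h l := by
      refine (Polynomial.natDegree_prod_le _ _).trans (Finset.sum_le_sum fun l _ => ?_)
      refine (Polynomial.natDegree_pow_le).trans ?_
      rw [Polynomial.natDegree_X_sub_C, mul_one]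
    have h2 : ((X - C (k : ℚ)) ^ (ex N h k - 1 - j) : ℚ[X]).natDegree ≤ ex N h k - 1 - j := by
      refine (Polynomial.natDegree_pow_le).trans ?_
      rw [Polynomial.natDegree_X_sub_C, mul_one]
    have h3 : ∑ l ∈ (range (n + 1)).erase k, ex N h l + ex N h k = D := by
      rw [hD]
      exact Finset.sum_erase_add _ _ hk
    have h4 := hex k
    refine lt_of_le_of_lt (Polynomial.degree_le_natDegree) ?_
    have h5 := Polynomial.natDegree_mul_le (p := C (co n N h k j) *
      (∏ l ∈ (range (n + 1)).erase k, (X - C (l : ℚ)) ^ ex N h l))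
      (q := (X - C (k : ℚ)) ^ (ex N h k - 1 - j))
    have h6 := Polynomial.natDegree_C_mul_le (co n N h k j)
      (∏ l ∈ (range (n + 1)).erase k, (X - C (l : ℚ)) ^ ex N h l)
    exact_mod_cast (by omega :
      (C (co n N h k j) * (∏ l ∈ (range (n + 1)).erase k, (X - C (l : ℚ)) ^ ex N h l) *
        (X - C (k : ℚ)) ^ (ex N h k - 1 - j) : ℚ[X]).natDegree < D)
  rw [hG, ← sub_eq_zero]
  set F : ℚ[X] := ∏ l ∈ range (n + 1), (X - C (l : ℚ)) ^ ex N h l with hF
  have hdvd : F ∣ ∑ k ∈ range (n + 1), Pk n N h k * Tk n N h k - 1 := by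
    refine Finset.prod_dvd_of_coprime ?_ ?_
    · intro a _ b _ hab
      refine IsCoprime.pow (Polynomial.isCoprime_X_sub_C_of_isUnit_sub ?_)
      rw [isUnit_iff_ne_zero, sub_ne_zero]
      exact_mod_cast hab
    · intro k hk
      rw [← Finset.add_sum_erase _ _ hk]
      have h1 : ∀ k' ∈ (range (n + 1)).erase k,
          (X - C (k : ℚ)) ^ ex N h k ∣ Pk n N h k' * Tk n N h k' := by
        intro k' hk'
        refine Dvd.dvd.mul_right ?_ _
        unfold Pk
        refine Finset.dvd_prod_of_mem (fun l : ℕ => (X - C (l : ℚ)) ^ ex N h l) ?_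
        rw [Finset.mem_erase]
        exact ⟨fun h => (Finset.mem_erase.1 hk').1 h.symm, hk⟩
      have h2 := Finset.dvd_sum h1
      have h3 := dvd_self n N h k
      have h4 := dvd_add h3 h2
      convert h4 using 1
      ring
  have hFm : F.Monic := Polynomial.monic_prod_of_monic _ _ fun l _ =>
    (Polynomial.monic_X_sub_C _).pow _
  have hFd : F.degree = D := by
    rw [Polynomial.degree_eq_natDegree hFm.ne_zero, hF, Polynomial.natDegree_prod_of_monic _ _
      (fun l _ => (Polynomial.monic_X_sub_C _).pow _)]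
    rw [hD]
    congr 1
    refine Finset.sum_congr rfl fun l _ => ?_
    rw [Polynomial.natDegree_pow, Polynomial.natDegree_X_sub_C, mul_one]
  refine Polynomial.eq_zero_of_dvd_of_degree_lt hdvd ?_
  rw [hFd]
  refine lt_of_le_of_lt (Polynomial.degree_sub_le _ _) (max_lt hdeg ?_)
  rw [Polynomial.degree_one]
  exact_mod_cast hD1

end Pool.Agent.W21.TM
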